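import Pool.Agent.K4H41.GS.Irr

set_option autoImplicit false
set_option linter.unusedSectionVars false

/-! The rows of the inverse lie in one coset. -/

namespace K4H41.GS

open Matrix TH6.LF TH57.Thr

section sf

variable {κ : Type} [Fintype κ] [DecidableEq κ] {Γ : Type} [Group Γ] {S : Matrix κ κ ℝ}

theorem sf_add_left (x y z : κ → MonoidAlgebra ℝ Γ) : sf S (x + y) z = sf S x z + sf S y z := by
  unfold sf; rw [Matrix.add_vecMul, ip_add_left]

theorem sf_add_right (x y z : κ → MonoidAlgebra ℝ Γ) : sf S x (y + z) = sf S x y + sf S x z := by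
  unfold sf; rw [ip_add_right]

theorem sf_smul_left (r : ℝ) (x y : κ → MonoidAlgebra ℝ Γ) : sf S (r • x) y = r * sf S x y := by
  unfold sf; rw [Matrix.smul_vecMul, ip_smul_left]

theorem sf_smul_right (r : ℝ) (x y : κ → MonoidAlgebra ℝ Γ) : sf S x (r • y) = r * sf S x y := by
  unfold sf; rw [ip_smul_right]

theorem sf_sum_left {ι : Type} (s : Finset ι) (f : ι → κ → MonoidAlgebra ℝ Γ)
    (y : κ → MonoidAlgebra ℝ Γ) : sf S (∑ i ∈ s, f i) y = ∑ i ∈ s, sf S (f i) y := by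
  unfold sf; rw [vec_sum, ip_sum_left]

theorem sf_comm (h : PD S) (x y : κ → MonoidAlgebra ℝ Γ) : sf S x y = sf S y x := by
  classical
  set T : Finset Γ := (Finset.univ.biUnion fun i => (x i).coeff.support)
    ∪ Finset.univ.biUnion fun i => (y i).coeff.support with hT
  rw [sf_eq x y T, sf_eq y x T]
  · exact Finset.sum_congr rfl fun g _ => h.comm _ _
  · intro i g hg
    rw [hT, Finset.mem_union]
    exact Or.inl (Finset.mem_biUnion.2 ⟨i, Finset.mem_univ _, Finsupp.mem_support_iff.2 hg⟩)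
  · intro i g hg
    rw [hT, Finset.mem_union]
    exact Or.inr (Finset.mem_biUnion.2 ⟨i, Finset.mem_univ _, Finsupp.mem_support_iff.2 hg⟩)

theorem sf_ci (v : κ → ℤ) : sf S (zr (ci Γ v)) (zr (ci Γ v)) = bf S (zc v) (zc v) := by
  classical
  rw [sf_eq _ _ {1}]
  · rw [Finset.sum_singleton, cg_zr, ig_ci_one]
  · intro i g hg
    rw [coeff_zr] at hg
    rw [Finset.mem_singleton]
    by_contra h
    have h1 := congrFun (ig_ci_ne (Γ := Γ) v g h) i
    change (ci Γ v i).coeff g = 0 at h1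
    rw [h1] at hg
    exact hg (by simp)

theorem sf_int (hS : ∀ i j, S i j ∈ (Int.castRingHom ℝ).range)
    (x y : κ → MonoidAlgebra ℤ Γ) : sf S (zr x) (zr y) ∈ (Int.castRingHom ℝ).range := by
  classical
  rw [sf_eq _ _ (Finset.univ.biUnion fun i => (y i).coeff.support)]
  · refine Subring.sum_mem _ fun g _ => ?_
    rw [bf_eq]
    refine Subring.sum_mem _ fun i _ => Subring.sum_mem _ fun j _ => ?_
    refine Subring.mul_mem _ (Subring.mul_mem _ ?_ (hS i j)) ?_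
    · rw [cg_zr]; exact ⟨ig x g i, rfl⟩
    · rw [cg_zr]; exact ⟨ig y g j, rfl⟩
  · intro i g hg
    rw [coeff_zr] at hg
    exact Finset.mem_biUnion.2 ⟨i, Finset.mem_univ _,
      Finsupp.mem_support_iff.2 (by exact_mod_cast hg)⟩

theorem le_neg_one {r : ℝ} (h : r ∈ (Int.castRingHom ℝ).range) (h0 : r < 0) : r ≤ -1 := by
  obtain ⟨z, rfl⟩ := h
  change (z : ℝ) < 0 at h0
  change (z : ℝ) ≤ -1
  have : z < 0 := by exact_mod_cast h0
  have : z ≤ -1 := by omega
  exact_mod_cast this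

end sf

section main

variable {κ : Type} [Fintype κ] [DecidableEq κ] {Γ : Type} [Group Γ] (H : Subgroup Γ)
  (S : Matrix κ κ ℝ)

/-- the Gram matrix -/
noncomputable def gram (A : Matrix κ κ (MonoidAlgebra ℤ Γ)) : Matrix κ κ (MonoidAlgebra ℝ Γ) :=
  toReal A * sc Γ S * adj (toReal A)

/-- the quadratic form of `T` is at least `θ` times that of the part of `T` in `H` -/
def Dom (θ : ℝ) (T : Matrix κ κ (MonoidAlgebra ℝ Γ)) : Prop :=
  ∀ x : κ → MonoidAlgebra ℝ Γ, θ * ip (x ᵥ* rm H T) x ≤ ip (x ᵥ* T) x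

variable {S}

theorem gram_form (A : Matrix κ κ (MonoidAlgebra ℤ Γ)) (x y : κ → MonoidAlgebra ℝ Γ) :
    ip (x ᵥ* gram S A) y = sf S (x ᵥ* toReal A) (y ᵥ* toReal A) := by
  unfold gram sf
  rw [← Matrix.vecMul_vecMul, ← Matrix.vecMul_vecMul, ip_vecMul, adj_adj]

theorem dom_t {θ : ℝ} {A : Matrix κ κ (MonoidAlgebra ℤ Γ)} (hD : Dom H θ (gram S A))
    (t : (Γ ⧸ H) → ℝ) (F : Finset (Γ ⧸ H)) (y : (Γ ⧸ H) → κ → MonoidAlgebra ℤ Γ)
    (hy : ∀ c, VC H c (y c)) :
    θ * ∑ c ∈ F, t c ^ 2 * sf S (zr (y c ᵥ* A)) (zr (y c ᵥ* A))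
      ≤ sf S (∑ c ∈ F, t c • zr (y c ᵥ* A)) (∑ c ∈ F, t c • zr (y c ᵥ* A)) := by
  have h1 := hD (∑ c ∈ F, t c • zr (y c))
  have hv : ∀ c, VC H c (t c • zr (y c)) := by
    intro c i g hg
    apply hy c i g
    intro h2
    apply hg
    rw [Pi.smul_apply, MonoidAlgebra.coeff_smul, Finsupp.smul_apply, coeff_zr, h2]
    simp
  rw [form_res H F (fun c => t c • zr (y c)) hv, gram_form, vec_sum] at h1
  have h2 : ∀ c, (t c • zr (y c)) ᵥ* toReal A = t c • zr (y c ᵥ* A) := by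
    intro c
    rw [zr_vecMul, Matrix.smul_vecMul]
  rw [Finset.sum_congr rfl fun c _ => h2 c] at h1
  refine le_trans (le_of_eq ?_) h1
  congr 1
  refine Finset.sum_congr rfl fun c _ => ?_
  rw [gram_form, h2, sf_smul_left, sf_smul_right]
  ring

variable (A : (Matrix κ κ (MonoidAlgebra ℤ Γ))ˣ) (v : κ → ℤ)

/-- the preimage of an integral vector -/
noncomputable def pre : κ → MonoidAlgebra ℤ Γ := ci Γ v ᵥ* (↑A⁻¹ : Matrix κ κ (MonoidAlgebra ℤ Γ))

/-- the image of a coset part of the preimage -/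
noncomputable def ac (c : Γ ⧸ H) : κ → MonoidAlgebra ℤ Γ :=
  vp H c (pre A v) ᵥ* (A : Matrix κ κ (MonoidAlgebra ℤ Γ))

theorem vecMul_ne {x : κ → MonoidAlgebra ℤ Γ} (h : x ≠ 0) :
    x ᵥ* (A : Matrix κ κ (MonoidAlgebra ℤ Γ)) ≠ 0 := by
  intro h1
  apply h
  have h2 := congrArg (fun z => z ᵥ* (↑A⁻¹ : Matrix κ κ (MonoidAlgebra ℤ Γ))) h1
  simp only [Matrix.vecMul_vecMul, Units.mul_inv, Matrix.vecMul_one, Matrix.zero_vecMul] at h2
  exact h2

theorem pre_vecMul : pre A v ᵥ* (A : Matrix κ κ (MonoidAlgebra ℤ Γ)) = ci Γ v := by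
  unfold pre
  rw [Matrix.vecMul_vecMul, Units.inv_mul, Matrix.vecMul_one]

theorem sum_ac : ∑ c ∈ cs H (pre A v), ac H A v c = ci Γ v := by
  classical
  have h1 : ∀ F : Finset (Γ ⧸ H), ∑ c ∈ F, ac H A v c
      = (∑ c ∈ F, vp H c (pre A v)) ᵥ* (A : Matrix κ κ (MonoidAlgebra ℤ Γ)) := by
    intro F
    induction F using Finset.induction_on with
    | empty => simp
    | insert c F hc ih =>
      rw [Finset.sum_insert hc, Finset.sum_insert hc, ih, Matrix.add_vecMul]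
      rfl
  rw [h1, sum_vp, pre_vecMul]

theorem zr_sum {ι : Type} (s : Finset ι) (f : ι → κ → MonoidAlgebra ℤ Γ) :
    zr (∑ i ∈ s, f i) = ∑ i ∈ s, zr (f i) := by
  classical
  induction s using Finset.induction_on with
  | empty => funext i; simp [zr]
  | insert c F hc ih => rw [Finset.sum_insert hc, Finset.sum_insert hc, zr_add, ih]

theorem in_one (h : (cs H (pre A v)).card ≤ 1) : ∃ c, VC H c (pre A v) := by
  rw [Finset.card_le_one_iff_subset_singleton] at h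
  obtain ⟨c, hc⟩ := h
  refine ⟨c, fun i g hg => ?_⟩
  have := hc ((mem_cs H).2 ⟨i, g, hg, rfl⟩)
  exact Finset.mem_singleton.1 this

variable {v}

theorem ac_neg (h : PD S) (hv : Irr S v) (hF : 2 ≤ (cs H (pre A v)).card) {c : Γ ⧸ H}
    (hc : c ∈ cs H (pre A v)) :
    sf S (zr (ac H A v c)) (zr (ci Γ v)) < sf S (zr (ac H A v c)) (zr (ac H A v c)) ∧
    ((∀ i j, S i j ∈ (Int.castRingHom ℝ).range) →
      sf S (zr (ac H A v c)) (zr (ci Γ v)) ≤ sf S (zr (ac H A v c)) (zr (ac H A v c)) - 1) := by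
  obtain ⟨d, hd, hdc⟩ : ∃ d ∈ cs H (pre A v), d ≠ c := by
    by_contra h1
    push Not at h1
    have : (cs H (pre A v)).card ≤ 1 := Finset.card_le_one.2 fun a ha b hb => by
      rw [h1 a ha, h1 b hb]
    omega
  have h1 : ac H A v c ≠ 0 := vecMul_ne A (vp_ne_zero H hc)
  set b := (pre A v - vp H c (pre A v)) ᵥ* (A : Matrix κ κ (MonoidAlgebra ℤ Γ)) with hb
  have h2 : b ≠ 0 := vecMul_ne A (sub_vp_ne_zero H hd hdc)
  have h3 : ci Γ v = ac H A v c + b := by
    rw [hb, Matrix.sub_vecMul, pre_vecMul]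
    change _ = ac H A v c + (ci Γ v - ac H A v c)
    abel
  have h4 := irr_ind h hv _ _ h1 h2 h3
  have h5 : sf S (zr (ac H A v c)) (zr (ci Γ v)) = sf S (zr (ac H A v c)) (zr (ac H A v c))
      + sf S (zr (ac H A v c)) (zr b) := by
    rw [h3, zr_add, sf_add_right]
  refine ⟨by linarith, fun hS => ?_⟩
  have h6 := le_neg_one (sf_int hS (ac H A v c) b) h4
  linarith

theorem norm_eq (v : κ → ℤ) : bf S (zc v) (zc v)
    = ∑ c ∈ cs H (pre A v), sf S (zr (ac H A v c)) (zr (ci Γ v)) := by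
  rw [← sf_sum_left, ← zr_sum, sum_ac, sf_ci]

theorem dom_one {θ : ℝ} (hD : Dom H θ (gram S (A : Matrix κ κ (MonoidAlgebra ℤ Γ))))
    (v : κ → ℤ) : θ * ∑ c ∈ cs H (pre A v), sf S (zr (ac H A v c)) (zr (ac H A v c))
      ≤ bf S (zc v) (zc v) := by
  have h1 := dom_t H hD (fun _ => 1) (cs H (pre A v)) (fun c => vp H c (pre A v))
    (fun c => vc_vp H c _)
  simp only [one_pow, one_mul, one_smul] at h1
  rw [← zr_sum] at h1
  change θ * ∑ c ∈ cs H (pre A v), sf S (zr (ac H A v c)) (zr (ac H A v c))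
    ≤ sf S (zr (∑ c ∈ cs H (pre A v), ac H A v c)) (zr (∑ c ∈ cs H (pre A v), ac H A v c)) at h1
  rwa [sum_ac, sf_ci] at h1

/-- the case of a real form -/
theorem one_coset_real (h : PD S) (hv : Irr S v) {θ : ℝ} (hθ : 1 ≤ θ)
    (hD : Dom H θ (gram S (A : Matrix κ κ (MonoidAlgebra ℤ Γ)))) : ∃ c, VC H c (pre A v) := by
  apply in_one
  by_contra hF
  have hF2 : 2 ≤ (cs H (pre A v)).card := by omega
  have h1 := dom_one H A hD v
  have h2 := norm_eq H A (S := S) v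
  have hne : (cs H (pre A v)).Nonempty := Finset.card_pos.1 (by omega)
  have h3 := Finset.sum_lt_sum_of_nonempty hne fun c hc => (ac_neg H A h hv hF2 hc).1
  have h4 := h.pos _ (zc_ne hv.1)
  rw [← h2] at h3
  nlinarith

/-- the case of an integral form -/
theorem one_coset_int (h : PD S) (hS : ∀ i j, S i j ∈ (Int.castRingHom ℝ).range)
    (hv : Irr S v) {θ : ℝ} {m : ℕ} (hm : bf S (zc v) (zc v) ≤ m)
    (hθ : (m : ℝ) / (m + 2) < θ)
    (hD : Dom H θ (gram S (A : Matrix κ κ (MonoidAlgebra ℤ Γ)))) : ∃ c, VC H c (pre A v) := by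
  apply in_one
  by_contra hF
  have hF2 : 2 ≤ (cs H (pre A v)).card := by omega
  have h1 := dom_one H A hD v
  have h2 := norm_eq H A (S := S) v
  have h3 := Finset.sum_le_sum fun c hc => (ac_neg H A h hv hF2 hc).2 hS
  rw [← h2, Finset.sum_sub_distrib] at h3
  simp only [Finset.sum_const, nsmul_eq_mul, mul_one] at h3
  have hF3 : (2 : ℝ) ≤ (cs H (pre A v)).card := by exact_mod_cast hF2
  set q := bf S (zc v) (zc v) with hq
  set Sv := ∑ c ∈ cs H (pre A v), sf S (zr (ac H A v c)) (zr (ac H A v c)) with hSv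
  have h5 : 0 ≤ q := h.nonneg _
  have hm0 : (0 : ℝ) < m + 2 := by positivity
  have h6 : (m : ℝ) < θ * (m + 2) := by rwa [div_lt_iff₀ hm0] at hθ
  have hθ0 : 0 < θ := by
    by_contra h7
    have h8 : θ * ((m : ℝ) + 2) ≤ 0 := mul_nonpos_of_nonpos_of_nonneg (not_lt.1 h7) hm0.le
    have h9 : (0 : ℝ) ≤ m := Nat.cast_nonneg m
    linarith
  have h7 : θ * (q + 2) ≤ q := by
    have : θ * (q + 2) ≤ θ * Sv := mul_le_mul_of_nonneg_left (by linarith) hθ0.le
    linarith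
  nlinarith

end main

end K4H41.GS
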