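import Pool.Agent.K4H41.GS.Struct

set_option autoImplicit false
set_option linter.unusedSectionVars false

/-! The main theorems: factorisation, descent of forms, and Whitehead torsion. -/

namespace K4H41.GS

open Matrix TH6.LF TH57.Thr

section span

variable {κ : Type} [Fintype κ] [DecidableEq κ] {Γ : Type} [Group Γ] (H : Subgroup Γ)
  (A : (Matrix κ κ (MonoidAlgebra ℤ Γ))ˣ) {S : Matrix κ κ ℝ}

theorem span_top (h : PD S) (hA : ∀ i : κ, ∀ w, Irr S w →
    bf S (zc w) (zc w) ≤ bf S (zc (Pi.single i 1)) (zc (Pi.single i 1)) →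
      ∃ c, VC H c (pre A w)) : ⨆ c, Lc H A c = ⊤ := by
  rw [eq_top_iff]
  intro v _
  have h1 : ∀ i : κ, (Pi.single i 1 : κ → ℤ) ∈ ⨆ c, Lc H A c := by
    intro i
    refine h.generate _ (Pi.single i 1) le_rfl (⨆ c, Lc H A c).toAddSubgroup fun w hw hw2 => ?_
    obtain ⟨c, hc⟩ := hA i w hw hw2
    exact (le_iSup (Lc H A) c) hc
  have h2 : v = ∑ i, v i • (Pi.single i 1 : κ → ℤ) := by
    funext j
    rw [Finset.sum_apply, Finset.sum_eq_single j]
    · simp
    · intro i _ hi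
      simp [hi.symm]
    · intro hj; exact absurd (Finset.mem_univ _) hj
  rw [h2]
  exact Submodule.sum_mem _ fun i _ => Submodule.smul_mem _ _ (h1 i)

theorem factor' {U : (Matrix κ κ ℤ)ˣ} {c : κ → Γ ⧸ H}
    (h : ∀ i, VC H (c i) (pre A ((U : Matrix κ κ ℤ) i))) :
    ∃ P : (Matrix κ κ (MonoidAlgebra ℤ H))ˣ,
      A = Units.map (mpm (inc H)) P * (dgu fun i => (c i).out)⁻¹ * iu Γ U := by
  apply factor
  intro i
  rw [QuotientGroup.out_eq']
  exact h i

theorem exists_UC (h : PD S) {θ : ℝ}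
    (hθ : 1 ≤ θ ∨ ∃ m : ℕ, (∀ i j, S i j ∈ (Int.castRingHom ℝ).range) ∧ (∀ i, S i i ≤ m) ∧
      (m : ℝ) / (m + 2) < θ)
    (hD : Dom H θ (gram S (A : Matrix κ κ (MonoidAlgebra ℤ Γ)))) :
    ∃ (U : (Matrix κ κ ℤ)ˣ) (c : κ → Γ ⧸ H), ∀ i, VC H (c i) (pre A ((U : Matrix κ κ ℤ) i)) := by
  apply exists_basis
  apply span_top H A h
  intro i w hw hw2
  rcases hθ with hθ | ⟨m, hS, hm, hθ⟩
  · exact one_coset_real H A h hw hθ hD
  · refine one_coset_int H A h hS hw (le_trans hw2 ?_) hθ hD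
    refine le_trans (le_of_eq ?_) (hm i)
    rw [bf_eq, Finset.sum_eq_single i, Finset.sum_eq_single i]
    · simp [zc]
    · intro j _ hj; simp [zc, hj]
    · intro hj; exact absurd (Finset.mem_univ _) hj
    · intro j _ hj
      refine Finset.sum_eq_zero fun k _ => ?_
      simp [zc, hj]
    · intro hj; exact absurd (Finset.mem_univ _) hj

theorem sharp_factor {θ : ℝ} (hθ : 1 - 1 / Real.sqrt 2 < θ)
    (hD : Dom H θ (gram 1 (A : Matrix κ κ (MonoidAlgebra ℤ Γ)))) :
    ∃ (P : (Matrix κ κ (MonoidAlgebra ℤ H))ˣ) (g : κ → Γ),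
      A = Units.map (mpm (inc H)) P * (dgu g)⁻¹ := by
  choose c hc using fun i => one_coset_sharp H A hθ hD i
  obtain ⟨P, hP⟩ := factor' H A (U := 1) (c := c) (fun i => by
    have h1 : ((1 : (Matrix κ κ ℤ)ˣ) : Matrix κ κ ℤ) i = Pi.single i 1 := by
      funext j
      rw [Units.val_one, Matrix.one_apply, Pi.single_apply]
      by_cases h : i = j
      · simp [h]
      · simp [h, Ne.symm h]
    rw [h1]
    exact hc i)
  refine ⟨P, fun i => (c i).out, ?_⟩
  have h1 : iu Γ (1 : (Matrix κ κ ℤ)ˣ) = 1 := by unfold iu; exact map_one _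
  rw [h1, mul_one] at hP
  exact hP

end span

section desc

variable {κ : Type} [Fintype κ] [DecidableEq κ] {Γ : Type} [Group Γ] (H : Subgroup Γ)

/-- the inclusion of the real group ring of a subgroup -/
noncomputable def incR : MonoidAlgebra ℝ H →+* MonoidAlgebra ℝ Γ :=
  MonoidAlgebra.mapDomainRingHom ℝ H.subtype

theorem mpmR_injective : Function.Injective (mpm (κ := κ) (incR H)) := by
  intro P Q h
  ext1 i j
  have h1 : MonoidAlgebra.mapDomain H.subtype (P i j)
      = MonoidAlgebra.mapDomain H.subtype (Q i j) := congrFun (congrFun h i) j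
  exact MonoidAlgebra.mapDomain_injective H.subtype_injective h1

theorem toReal_mpm (P : Matrix κ κ (MonoidAlgebra ℤ H)) :
    toReal (mpm (inc H) P) = mpm (incR H) (toReal P) := by
  ext1 i j
  change MonoidAlgebra.mapRingHom Γ (Int.castRingHom ℝ) (MonoidAlgebra.mapDomain H.subtype (P i j))
    = MonoidAlgebra.mapDomain H.subtype (MonoidAlgebra.mapRingHom H (Int.castRingHom ℝ) (P i j))
  induction P i j using MonoidAlgebra.induction_linear with
  | zero => simp
  | add x y hx hy =>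
    rw [MonoidAlgebra.mapDomain_add, map_add, hx, hy, map_add, MonoidAlgebra.mapDomain_add]
  | single g z => simp

theorem adj_mpm (P : Matrix κ κ (MonoidAlgebra ℝ H)) :
    adj (mpm (incR H) P) = mpm (incR H) (adj P) := by
  ext1 i j
  change bar (MonoidAlgebra.mapDomain H.subtype (P j i))
    = MonoidAlgebra.mapDomain H.subtype (bar (P j i))
  induction P j i using MonoidAlgebra.induction_linear with
  | zero => simp
  | add x y hx hy =>
    rw [MonoidAlgebra.mapDomain_add, bar_add, hx, hy, bar_add, MonoidAlgebra.mapDomain_add]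
  | single g z => simp

theorem sc_mpm (S : Matrix κ κ ℝ) : sc Γ S = mpm (incR H) (sc H S) := by
  ext1 i j
  change MonoidAlgebra.single 1 (S i j)
    = MonoidAlgebra.mapDomain H.subtype (MonoidAlgebra.single 1 (S i j))
  simp

theorem gram_mpm (S : Matrix κ κ ℝ) (P : Matrix κ κ (MonoidAlgebra ℤ H)) :
    gram S (mpm (inc H) P) = mpm (incR H) (gram S P) := by
  unfold gram
  rw [toReal_mpm, adj_mpm, sc_mpm H, map_mul, map_mul]

theorem gram_mul (S : Matrix κ κ ℝ) (P Q : Matrix κ κ (MonoidAlgebra ℤ Γ)) :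
    gram S (P * Q) = toReal P * gram S Q * adj (toReal P) := by
  unfold gram
  rw [toReal_mul, adj_mul]
  simp only [Matrix.mul_assoc]

variable (A : (Matrix κ κ (MonoidAlgebra ℤ Γ))ˣ) {S : Matrix κ κ ℝ}

theorem rm_of_supp {T : Matrix κ κ (MonoidAlgebra ℝ Γ)}
    (hT : ∀ i j g, (T i j).coeff g ≠ 0 → g ∈ H) : rm H T = T := by
  ext i j g
  change (res H (T i j)).coeff g = _
  rw [coeff_res]
  split_ifs with h
  · rfl
  · by_contra h1
    exact h (hT i j g (Ne.symm h1))

theorem dom_of_supp {T : Matrix κ κ (MonoidAlgebra ℝ Γ)}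
    (hT : ∀ i j g, (T i j).coeff g ≠ 0 → g ∈ H) : Dom H 1 T := by
  intro x
  rw [rm_of_supp H hT, one_mul]

theorem vc_zr {c : Γ ⧸ H} {x : κ → MonoidAlgebra ℤ Γ} (h : VC H c x) : VC H c (zr x) := by
  intro i g hg
  apply h i g
  intro h1
  rw [coeff_zr, h1] at hg
  exact hg (by simp)

theorem orth {T : Matrix κ κ (MonoidAlgebra ℝ Γ)}
    (hT : ∀ i j g, (T i j).coeff g ≠ 0 → g ∈ H)
    (hTA : gram S (A : Matrix κ κ (MonoidAlgebra ℤ Γ)) = T) {c d : Γ ⧸ H} (hcd : c ≠ d)
    {v w : κ → ℤ} (hv : VC H c (pre A v)) (hw : VC H d (pre A w)) :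
    bf S (zc v) (zc w) = 0 := by
  classical
  have h1 : sf S (zr (ci Γ v)) (zr (ci Γ w)) = bf S (zc v) (zc w) := by
    rw [sf_eq _ _ {1}]
    · rw [Finset.sum_singleton, cg_zr, cg_zr, ig_ci_one, ig_ci_one]
    · intro i g hg
      rw [coeff_zr] at hg
      rw [Finset.mem_singleton]
      by_contra h
      have h1 := congrFun (ig_ci_ne (Γ := Γ) w g h) i
      change (ci Γ w i).coeff g = 0 at h1
      rw [h1] at hg
      exact hg (by simp)
  rw [← h1, ← pre_vecMul A v, ← pre_vecMul A w, zr_vecMul, zr_vecMul, ← gram_form, hTA]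
  have h2 := vp_vecMul H (vc_zr H hv) T
  rw [rm_of_supp H hT] at h2
  rw [← h2]
  exact ip_disj H hcd _ _ (vc_vp H c _) (vc_zr H hw)

theorem gram_iu (U : (Matrix κ κ ℤ)ˣ) (i j : κ) :
    gram S (iu Γ U : Matrix κ κ (MonoidAlgebra ℤ Γ)) i j
      = MonoidAlgebra.single 1 (bf S (zc ((U : Matrix κ κ ℤ) i)) (zc ((U : Matrix κ κ ℤ) j))) := by
  unfold gram
  rw [Matrix.mul_apply]
  have h1 : ∀ k, (toReal (iu Γ U : Matrix κ κ (MonoidAlgebra ℤ Γ)) * sc Γ S) i k
      = MonoidAlgebra.single 1 ((zc ((U : Matrix κ κ ℤ) i) ᵥ* S) k) := by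
    intro k
    rw [Matrix.mul_apply]
    have h2 : ∀ l, toReal (iu Γ U : Matrix κ κ (MonoidAlgebra ℤ Γ)) i l * sc Γ S l k
        = MonoidAlgebra.single 1 (zc ((U : Matrix κ κ ℤ) i) l * S l k) := by
      intro l
      simp only [toReal, Matrix.map_apply, iu_apply, sc, zc]
      rw [MonoidAlgebra.mapRingHom_single, MonoidAlgebra.single_mul_single, mul_one]
      rfl
    rw [Finset.sum_congr rfl fun l _ => h2 l]
    change _ = MonoidAlgebra.single 1 (∑ l, zc ((U : Matrix κ κ ℤ) i) l * S l k)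
    rw [← MonoidAlgebra.singleAddHom_apply, map_sum]
    rfl
  have h2 : ∀ k, (toReal (iu Γ U : Matrix κ κ (MonoidAlgebra ℤ Γ)) * sc Γ S) i k
      * adj (toReal (iu Γ U : Matrix κ κ (MonoidAlgebra ℤ Γ))) k j
      = MonoidAlgebra.single 1 ((zc ((U : Matrix κ κ ℤ) i) ᵥ* S) k
        * zc ((U : Matrix κ κ ℤ) j) k) := by
    intro k
    rw [h1, adj_apply]
    simp only [toReal, Matrix.map_apply, iu_apply, zc]
    rw [MonoidAlgebra.mapRingHom_single, bar_single, inv_one, MonoidAlgebra.single_mul_single,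
      mul_one]
    rfl
  rw [Finset.sum_congr rfl fun l _ => h2 l]
  change _ = MonoidAlgebra.single 1 (∑ k, (zc ((U : Matrix κ κ ℤ) i) ᵥ* S) k
    * zc ((U : Matrix κ κ ℤ) j) k)
  rw [← MonoidAlgebra.singleAddHom_apply, map_sum]
  rfl

/-- descent of forms -/
theorem descent (h : PD S) {M : Matrix κ κ (MonoidAlgebra ℝ H)}
    (hM : gram S (A : Matrix κ κ (MonoidAlgebra ℤ Γ)) = mpm (incR H) M) :
    ∃ C : (Matrix κ κ (MonoidAlgebra ℤ H))ˣ, M = gram S (C : Matrix κ κ (MonoidAlgebra ℤ H)) := by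
  have hT : ∀ i j g, ((mpm (incR H) M) i j).coeff g ≠ 0 → g ∈ H := by
    intro i j g hg
    by_contra h1
    apply hg
    change (MonoidAlgebra.mapDomain H.subtype (M i j)).coeff g = 0
    rw [MonoidAlgebra.coeff_mapDomain]
    apply Finsupp.mapDomain_of_notMem_range
    rintro ⟨x, rfl⟩
    exact h1 x.2
  obtain ⟨U, c, hc⟩ := exists_UC H A h (Or.inl le_rfl)
    (by rw [hM]; exact dom_of_supp H hT)
  obtain ⟨P, hP⟩ := factor' H A hc
  refine ⟨P * iu H U, ?_⟩
  apply mpmR_injective H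
  rw [← gram_mpm, ← hM]
  have h1 : mpm (inc H) (P * iu H U : (Matrix κ κ (MonoidAlgebra ℤ H))ˣ).val
      = (Units.map (mpm (inc H)) P : (Matrix κ κ (MonoidAlgebra ℤ Γ))ˣ).val
        * (iu Γ U : Matrix κ κ (MonoidAlgebra ℤ Γ)) := by
    rw [Units.val_mul, map_mul]
    congr 1
    ext1 i j
    change MonoidAlgebra.mapDomain H.subtype ((iu H U : Matrix κ κ (MonoidAlgebra ℤ H)) i j) = _
    rw [iu_apply, iu_apply]
    simp
  rw [h1]
  have h2 : (A : Matrix κ κ (MonoidAlgebra ℤ Γ))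
      = (Units.map (mpm (inc H)) P : (Matrix κ κ (MonoidAlgebra ℤ Γ))ˣ).val
        * (Matrix.diagonal (fun i => MonoidAlgebra.single ((c i).out)⁻¹ (1 : ℤ))
          * (iu Γ U : Matrix κ κ (MonoidAlgebra ℤ Γ))) := by
    conv_lhs => rw [hP]
    rw [Units.val_mul, Units.val_mul, Matrix.mul_assoc]
    rfl
  rw [h2, gram_mul S (Units.map (mpm (inc H)) P : (Matrix κ κ (MonoidAlgebra ℤ Γ))ˣ).val
      (Matrix.diagonal _ * _), gram_mul S
      (Units.map (mpm (inc H)) P : (Matrix κ κ (MonoidAlgebra ℤ Γ))ˣ).val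
      (iu Γ U : Matrix κ κ (MonoidAlgebra ℤ Γ))]
  congr 2
  rw [gram_mul]
  ext1 i j
  have e1 : toReal (Matrix.diagonal (fun i => MonoidAlgebra.single ((c i).out)⁻¹ (1 : ℤ)))
      = Matrix.diagonal (fun i => MonoidAlgebra.single ((c i).out)⁻¹ (1 : ℝ)) := by
    ext1 i j
    simp only [toReal, Matrix.map_apply]
    by_cases h : i = j
    · subst h
      rw [Matrix.diagonal_apply_eq, Matrix.diagonal_apply_eq, MonoidAlgebra.mapRingHom_single]
      simp
    · rw [Matrix.diagonal_apply_ne _ h, Matrix.diagonal_apply_ne _ h, map_zero]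
  have e2 : adj (Matrix.diagonal (fun i => MonoidAlgebra.single ((c i).out)⁻¹ (1 : ℝ)))
      = Matrix.diagonal (fun i => MonoidAlgebra.single ((c i).out) (1 : ℝ)) := by
    ext1 i j
    rw [adj_apply]
    by_cases h : i = j
    · subst h
      rw [Matrix.diagonal_apply_eq, Matrix.diagonal_apply_eq, bar_single, inv_inv]
    · rw [Matrix.diagonal_apply_ne _ h, Matrix.diagonal_apply_ne _ (Ne.symm h), bar_zero]
  rw [e1, e2, Matrix.mul_diagonal, Matrix.diagonal_mul, gram_iu,
    MonoidAlgebra.single_mul_single, MonoidAlgebra.single_mul_single, mul_one, one_mul, mul_one]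
  by_cases hcc : c i = c j
  · rw [hcc, inv_mul_cancel]
  · rw [orth H A hT hM hcc (hc i) (hc j), MonoidAlgebra.single_zero, MonoidAlgebra.single_zero]

end desc

section tors

variable {κ : Type} [Fintype κ] [DecidableEq κ] {Γ : Type} [Group Γ]

theorem dgu_mem (a : κ → Γ) : dgu a ∈ HH (TU Γ) κ := by
  classical
  have key : ∀ s : Finset κ, dgu (fun i => if i ∈ s then a i else 1) ∈ HH (TU Γ) κ := by
    intro s
    induction s using Finset.induction_on with
    | empty =>
      have h1 : dgu (κ := κ) (fun i => if i ∈ (∅ : Finset κ) then a i else 1) = 1 := by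
        apply Units.ext
        change Matrix.diagonal _ = 1
        rw [← Matrix.diagonal_one]
        congr 1
      rw [h1]
      exact one_mem _
    | insert j s hj ih =>
      let u : (MonoidAlgebra ℤ Γ)ˣ :=
        { val := MonoidAlgebra.single (a j) 1
          inv := MonoidAlgebra.single (a j)⁻¹ 1
          val_inv := by
            rw [MonoidAlgebra.single_mul_single, mul_inv_cancel, mul_one]; rfl
          inv_val := by
            rw [MonoidAlgebra.single_mul_single, inv_mul_cancel, mul_one]; rfl }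
      have hu : u ∈ TU Γ := ⟨a j, 1, rfl⟩
      have h1 : dgu (fun i => if i ∈ insert j s then a i else 1)
          = Units.map (dgm j) u * dgu (fun i => if i ∈ s then a i else 1) := by
        apply Units.ext
        rw [Units.val_mul]
        change Matrix.diagonal _ = Matrix.diagonal (Function.update 1 j (u : MonoidAlgebra ℤ Γ))
          * Matrix.diagonal _
        rw [Matrix.diagonal_mul_diagonal]
        congr 1
        funext i
        by_cases hij : i = j
        · subst hij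
          simp [hj, u, ← MonoidAlgebra.one_def]
        · simp [hij]
      rw [h1]
      exact mul_mem (dgm_mem_HH _ j u hu) ih
  have h1 := key Finset.univ
  simpa using h1

/-- a factorisation determines the torsion -/
theorem TT_factor (H : Subgroup Γ) {A : (Matrix κ κ (MonoidAlgebra ℤ Γ))ˣ}
    {P : (Matrix κ κ (MonoidAlgebra ℤ H))ˣ} {D : (Matrix κ κ (MonoidAlgebra ℤ Γ))ˣ}
    {U : (Matrix κ κ ℤ)ˣ} (hD : D ∈ HH (TU Γ) κ)
    (hA : A = Units.map (mpm (inc H)) P * D * iu Γ U)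
    (hP : TT (TU Γ) (Units.map (mpm (inc H)) P)) : TT (TU Γ) A := by
  rw [hA]
  exact TT_mul _ _ _ (TT_mul _ _ _ hP (TT_of_mem _ _ hD)) (TT_im U)

theorem TT_inc (H : Subgroup Γ) {P : (Matrix κ κ (MonoidAlgebra ℤ H))ˣ} (hP : TT (TU H) P) :
    TT (TU Γ) (Units.map (mpm (inc H)) P) := by
  refine TT_map (TU H) (TU Γ) (inc H) ?_ P hP
  rintro u ⟨g, ε, hu⟩
  refine ⟨g, ε, ?_⟩
  change MonoidAlgebra.mapDomain H.subtype (u : MonoidAlgebra ℤ H) = _
  rw [hu, MonoidAlgebra.mapDomain_single]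
  rfl

theorem supp_inc (H : Subgroup Γ) (P : (Matrix κ κ (MonoidAlgebra ℤ H))ˣ) (i j : κ) (g : Γ)
    (hg : ((Units.map (mpm (inc H)) P : (Matrix κ κ (MonoidAlgebra ℤ Γ))ˣ).val i j).coeff g ≠ 0) :
    g ∈ H := by
  by_contra h1
  apply hg
  change (MonoidAlgebra.mapDomain H.subtype (P.val i j)).coeff g = 0
  rw [MonoidAlgebra.coeff_mapDomain]
  apply Finsupp.mapDomain_of_notMem_range
  rintro ⟨x, rfl⟩
  exact h1 x.2

theorem TT_bot (P : (Matrix κ κ (MonoidAlgebra ℤ (⊥ : Subgroup Γ)))ˣ) :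
    TT (TU Γ) (Units.map (mpm (inc (⊥ : Subgroup Γ))) P) :=
  TT_trivial _ fun i j g hg => Subgroup.mem_bot.1 (supp_inc ⊥ P i j g hg)

theorem TT_cyc (htf : ∀ g : Γ, ∀ k : ℕ, 0 < k → g ^ k = 1 → g = 1) (H : Subgroup Γ)
    (hH : IsCyclic H) (P : (Matrix κ κ (MonoidAlgebra ℤ H))ˣ) :
    TT (TU Γ) (Units.map (mpm (inc H)) P) :=
  TT_cyclic htf _ H hH fun i j g hg => supp_inc H P i j g hg

end tors

end K4H41.GS
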