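import Pool.Agent.K4H41.GS.Part

set_option autoImplicit false
set_option linter.unusedSectionVars false

/-! Positive definite forms, irreducible vectors, and the induced forms over a group ring. -/

namespace K4H41.GS

open Matrix TH6.LF TH57.Thr

section form

variable {κ : Type} [Fintype κ] [DecidableEq κ]

/-- the bilinear form -/
def bf (S : Matrix κ κ ℝ) (a b : κ → ℝ) : ℝ := (a ᵥ* S) ⬝ᵥ b

/-- positive definiteness -/
structure PD (S : Matrix κ κ ℝ) : Prop where
  symm : ∀ i j, S i j = S j i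
  pos : ∀ a : κ → ℝ, a ≠ 0 → 0 < bf S a a

variable {S : Matrix κ κ ℝ}

theorem bf_add_left (a b c : κ → ℝ) : bf S (a + b) c = bf S a c + bf S b c := by
  unfold bf; rw [Matrix.add_vecMul, add_dotProduct]

theorem bf_add_right (a b c : κ → ℝ) : bf S a (b + c) = bf S a b + bf S a c := by
  unfold bf; rw [dotProduct_add]

theorem bf_smul_left (r : ℝ) (a b : κ → ℝ) : bf S (r • a) b = r * bf S a b := by
  unfold bf; rw [Matrix.smul_vecMul, smul_dotProduct, smul_eq_mul]

theorem bf_smul_right (r : ℝ) (a b : κ → ℝ) : bf S a (r • b) = r * bf S a b := by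
  unfold bf; rw [dotProduct_smul, smul_eq_mul]

theorem bf_zero_left (b : κ → ℝ) : bf S 0 b = 0 := by
  unfold bf; simp

theorem bf_zero_right (b : κ → ℝ) : bf S b 0 = 0 := by
  unfold bf; simp

theorem bf_eq (a b : κ → ℝ) : bf S a b = ∑ i, ∑ j, a i * S i j * b j := by
  unfold bf
  simp only [Matrix.vecMul, dotProduct, Finset.sum_mul]
  rw [Finset.sum_comm]

theorem PD.comm (h : PD S) (a b : κ → ℝ) : bf S a b = bf S b a := by
  rw [bf_eq, bf_eq, Finset.sum_comm]
  refine Finset.sum_congr rfl fun i _ => Finset.sum_congr rfl fun j _ => ?_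
  rw [h.symm]; ring

theorem PD.nonneg (h : PD S) (a : κ → ℝ) : 0 ≤ bf S a a := by
  by_cases ha : a = 0
  · rw [ha, bf_zero_left]
  · exact (h.pos a ha).le

theorem PD.bound (h : PD S) : ∃ c : ℝ, 0 < c ∧ ∀ a : κ → ℝ, c * ‖a‖ ^ 2 ≤ bf S a a := by
  rcases isEmpty_or_nonempty κ with he | hne
  · refine ⟨1, one_pos, fun a => ?_⟩
    have : a = 0 := Subsingleton.elim _ _
    rw [this, bf_zero_left]; simp
  · have hc : IsCompact (Metric.sphere (0 : κ → ℝ) 1) := isCompact_sphere _ _
    have hn : (Metric.sphere (0 : κ → ℝ) 1).Nonempty := by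
      refine ⟨fun _ => 1, ?_⟩
      rw [mem_sphere_zero_iff_norm]
      simp
    have hcont : Continuous fun a : κ → ℝ => bf S a a := by
      simp only [bf_eq]
      fun_prop
    obtain ⟨u, hu, hmin⟩ := hc.exists_isMinOn hn hcont.continuousOn
    have hu0 : u ≠ 0 := by
      rintro rfl
      rw [mem_sphere_zero_iff_norm] at hu
      simp at hu
    refine ⟨bf S u u, h.pos u hu0, fun a => ?_⟩
    by_cases ha : a = 0
    · rw [ha, bf_zero_left]; simp
    have hna : ‖a‖ ≠ 0 := norm_ne_zero_iff.2 ha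
    have h1 : ‖a‖⁻¹ • a ∈ Metric.sphere (0 : κ → ℝ) 1 := by
      rw [mem_sphere_zero_iff_norm, norm_smul, norm_inv, norm_norm, inv_mul_cancel₀ hna]
    have h2 := hmin h1
    simp only [Set.mem_ofPred_eq] at h2
    rw [bf_smul_left, bf_smul_right] at h2
    have h3 : bf S a a = ‖a‖ ^ 2 * (‖a‖⁻¹ * (‖a‖⁻¹ * bf S a a)) := by
      field_simp
    rw [h3, mul_comm]
    exact mul_le_mul_of_nonneg_left h2 (by positivity)

/-- an integral vector as a real vector -/
def zc (a : κ → ℤ) : κ → ℝ := fun i => (a i : ℝ)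

theorem zc_add (a b : κ → ℤ) : zc (a + b) = zc a + zc b := by
  funext i; simp [zc]

theorem zc_neg (a : κ → ℤ) : zc (-a) = -zc a := by
  funext i; simp [zc]

theorem zc_ne {a : κ → ℤ} (h : a ≠ 0) : zc a ≠ 0 := by
  intro h1
  apply h
  funext i
  have := congrFun h1 i
  simpa [zc] using this

theorem PD.finite (h : PD S) (C : ℝ) : {a : κ → ℤ | bf S (zc a) (zc a) ≤ C}.Finite := by
  obtain ⟨c, hc, hb⟩ := h.bound
  have hN : ∃ N : ℕ, C / c ≤ N := exists_nat_ge _
  obtain ⟨N, hN⟩ := hN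
  refine (Set.finite_Icc (fun _ : κ => -((N : ℤ) + 1)) (fun _ => (N : ℤ) + 1)).subset ?_
  intro a ha
  have h1 : c * ‖zc a‖ ^ 2 ≤ C := le_trans (hb _) ha
  have h2 : ‖zc a‖ ^ 2 ≤ N := by
    refine le_trans ?_ hN
    rw [le_div_iff₀ hc]; linarith
  have h3 : ∀ i, |(a i : ℝ)| ≤ N + 1 := by
    intro i
    have h4 : ‖zc a i‖ ≤ ‖zc a‖ := norm_le_pi_norm _ i
    rw [Real.norm_eq_abs] at h4
    change |(a i : ℝ)| ≤ ‖zc a‖ at h4
    nlinarith [abs_nonneg (a i : ℝ), norm_nonneg (zc a)]
  constructor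
  · intro i
    have := (abs_le.1 (h3 i)).1
    exact_mod_cast this
  · intro i
    have := (abs_le.1 (h3 i)).2
    exact_mod_cast this

/-- irreducible vectors -/
def Irr (S : Matrix κ κ ℝ) (v : κ → ℤ) : Prop :=
  v ≠ 0 ∧ ∀ a b : κ → ℤ, a ≠ 0 → b ≠ 0 → v = a + b → bf S (zc a) (zc b) < 0

theorem PD.generate (h : PD S) : ∀ (N : ℕ) (v : κ → ℤ),
    (h.finite (bf S (zc v) (zc v))).toFinset.card ≤ N → ∀ P : AddSubgroup (κ → ℤ),
    (∀ w, Irr S w → bf S (zc w) (zc w) ≤ bf S (zc v) (zc v) → w ∈ P) → v ∈ P := by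
  intro N
  induction N with
  | zero =>
    intro v hv P _
    exfalso
    have h1 : v ∈ (h.finite (bf S (zc v) (zc v))).toFinset := by
      rw [Set.Finite.mem_toFinset, Set.mem_ofPred_eq]
    have := Finset.card_pos.2 ⟨v, h1⟩
    omega
  | succ N ih =>
    intro v hv P hP
    by_cases h0 : v = 0
    · rw [h0]; exact P.zero_mem
    by_cases hirr : Irr S v
    · exact hP v hirr le_rfl
    · have h1 : ∃ a b : κ → ℤ, a ≠ 0 ∧ b ≠ 0 ∧ v = a + b ∧ 0 ≤ bf S (zc a) (zc b) := by
        by_contra h2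
        push Not at h2
        exact hirr ⟨h0, fun a b ha hb hab => h2 a b ha hb hab⟩
      obtain ⟨a, b, ha, hb, hab, h2⟩ := h1
      have hv2 : bf S (zc v) (zc v) = bf S (zc a) (zc a) + 2 * bf S (zc a) (zc b)
          + bf S (zc b) (zc b) := by
        rw [hab, zc_add, bf_add_left, bf_add_right, bf_add_right, h.comm (zc b) (zc a)]
        ring
      have pa := h.pos _ (zc_ne ha)
      have pb := h.pos _ (zc_ne hb)
      have key : ∀ w : κ → ℤ, bf S (zc w) (zc w) < bf S (zc v) (zc v) → w ∈ P := by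
        intro w hw
        apply ih w ?_ P (fun u hu hu2 => hP u hu (le_trans hu2 hw.le))
        have h3 : (h.finite (bf S (zc w) (zc w))).toFinset
            ⊂ (h.finite (bf S (zc v) (zc v))).toFinset := by
          rw [Finset.ssubset_iff_of_subset]
          · refine ⟨v, ?_, ?_⟩
            · rw [Set.Finite.mem_toFinset, Set.mem_ofPred_eq]
            · rw [Set.Finite.mem_toFinset]
              intro h4
              exact absurd h4 (not_le.2 hw)
          · intro u hu
            rw [Set.Finite.mem_toFinset] at hu ⊢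
            exact le_trans hu hw.le
        have := Finset.card_lt_card h3
        omega
      rw [hab]
      exact P.add_mem (key a (by linarith)) (key b (by linarith))

end form

section ind

variable {κ : Type} [Fintype κ] [DecidableEq κ] {Γ : Type} [Group Γ] {S : Matrix κ κ ℝ}

/-- a real matrix as a matrix over the real group ring -/
noncomputable def sc (Γ : Type) [Group Γ] (S : Matrix κ κ ℝ) : Matrix κ κ (MonoidAlgebra ℝ Γ) :=
  S.map (MonoidAlgebra.single 1)

/-- the coefficients at a group element -/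
def cg (x : κ → MonoidAlgebra ℝ Γ) (g : Γ) : κ → ℝ := fun i => (x i).coeff g

theorem cg_vecMul_sc (x : κ → MonoidAlgebra ℝ Γ) (g : Γ) :
    cg (x ᵥ* sc Γ S) g = cg x g ᵥ* S := by
  funext j
  simp only [cg, Matrix.vecMul, dotProduct, sc, Matrix.map_apply, MonoidAlgebra.coeff_sum,
    Finsupp.finsetSum_apply]
  refine Finset.sum_congr rfl fun i _ => ?_
  rw [MonoidAlgebra.coeff_mul_single_apply]
  simp

/-- the form of the induced module -/
noncomputable def sf (S : Matrix κ κ ℝ) (x y : κ → MonoidAlgebra ℝ Γ) : ℝ :=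
  ip (x ᵥ* sc Γ S) y

theorem sf_eq (x y : κ → MonoidAlgebra ℝ Γ) (T : Finset Γ)
    (hT : ∀ i g, (y i).coeff g ≠ 0 → g ∈ T) : sf S x y = ∑ g ∈ T, bf S (cg x g) (cg y g) := by
  unfold sf
  rw [ip_comm, ip_eq]
  have h1 : ∀ i, ((y i).coeff.sum fun g a => a * ((x ᵥ* sc Γ S) i).coeff g)
      = ∑ g ∈ T, (y i).coeff g * ((x ᵥ* sc Γ S) i).coeff g := by
    intro i
    rw [Finsupp.sum]
    apply Finset.sum_subset
    · intro g hg
      exact hT i g (Finsupp.mem_support_iff.1 hg)
    · intro g _ hg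
      rw [Finsupp.notMem_support_iff.1 hg, zero_mul]
  rw [Finset.sum_congr rfl fun i _ => h1 i, Finset.sum_comm]
  refine Finset.sum_congr rfl fun g _ => ?_
  unfold bf
  rw [← cg_vecMul_sc]
  simp only [dotProduct, cg]
  exact Finset.sum_congr rfl fun i _ => mul_comm _ _

/-- real vectors of integral vectors -/
noncomputable def zr (x : κ → MonoidAlgebra ℤ Γ) : κ → MonoidAlgebra ℝ Γ :=
  fun i => MonoidAlgebra.mapRingHom Γ (Int.castRingHom ℝ) (x i)

theorem coeff_zr (x : κ → MonoidAlgebra ℤ Γ) (i : κ) (g : Γ) :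
    (zr x i).coeff g = ((x i).coeff g : ℝ) := by
  simp [zr, MonoidAlgebra.coeff_mapRingHom]

theorem zr_add (x y : κ → MonoidAlgebra ℤ Γ) : zr (x + y) = zr x + zr y := by
  funext i; simp [zr]

theorem zr_vecMul (x : κ → MonoidAlgebra ℤ Γ) (A : Matrix κ κ (MonoidAlgebra ℤ Γ)) :
    zr (x ᵥ* A) = zr x ᵥ* toReal A := by
  funext j
  simp only [zr, Matrix.vecMul, dotProduct, map_sum, map_mul, toReal, Matrix.map_apply]

theorem zr_ne {x : κ → MonoidAlgebra ℤ Γ} (h : x ≠ 0) : zr x ≠ 0 := by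
  intro h1
  apply h
  funext i
  ext g
  have h2 := congrFun h1 i
  have h3 := coeff_zr x i g
  rw [h2] at h3
  simp only [Pi.zero_apply, MonoidAlgebra.coeff_zero, Finsupp.coe_zero] at h3 ⊢
  exact_mod_cast h3.symm

/-- integral coefficients at a group element -/
def ig (x : κ → MonoidAlgebra ℤ Γ) (g : Γ) : κ → ℤ := fun i => (x i).coeff g

theorem cg_zr (x : κ → MonoidAlgebra ℤ Γ) (g : Γ) : cg (zr x) g = zc (ig x g) := by
  funext i
  exact coeff_zr x i g

/-- an integral vector in the induced module -/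
noncomputable def ci (Γ : Type) [Group Γ] (v : κ → ℤ) : κ → MonoidAlgebra ℤ Γ :=
  fun i => MonoidAlgebra.single 1 (v i)

theorem ig_ci_one (v : κ → ℤ) : ig (ci Γ v) 1 = v := by
  funext i; simp [ig, ci]

theorem ig_ci_ne (v : κ → ℤ) (g : Γ) (hg : g ≠ 1) : ig (ci Γ v) g = 0 := by
  funext i
  simp [ig, ci, MonoidAlgebra.coeff_single, Finsupp.single_apply, Ne.symm hg]

theorem irr_ind (h : PD S) {v : κ → ℤ} (hv : Irr S v) (x y : κ → MonoidAlgebra ℤ Γ)
    (hx : x ≠ 0) (hy : y ≠ 0) (hxy : ci Γ v = x + y) : sf S (zr x) (zr y) < 0 := by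
  classical
  set T : Finset Γ := insert 1 ((Finset.univ.biUnion fun i => (x i).coeff.support)
    ∪ Finset.univ.biUnion fun i => (y i).coeff.support) with hT
  have hTx : ∀ i g, (x i).coeff g ≠ 0 → g ∈ T := by
    intro i g hg
    rw [hT, Finset.mem_insert, Finset.mem_union]
    exact Or.inr (Or.inl (Finset.mem_biUnion.2 ⟨i, Finset.mem_univ _,
      Finsupp.mem_support_iff.2 hg⟩))
  have hTy : ∀ i g, (y i).coeff g ≠ 0 → g ∈ T := by
    intro i g hg
    rw [hT, Finset.mem_insert, Finset.mem_union]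
    exact Or.inr (Or.inr (Finset.mem_biUnion.2 ⟨i, Finset.mem_univ _,
      Finsupp.mem_support_iff.2 hg⟩))
  rw [sf_eq _ _ T (by
    intro i g hg
    rw [coeff_zr] at hg
    exact hTy i g (by exact_mod_cast hg))]
  have hig : ∀ g, ig (ci Γ v) g = ig x g + ig y g := by
    intro g
    rw [hxy]
    funext i
    simp [ig]
  have hne : ∀ g, g ≠ 1 → ig y g = - ig x g := by
    intro g hg
    have h1 := hig g
    rw [ig_ci_ne v g hg] at h1
    exact (neg_eq_of_add_eq_zero_right h1.symm).symm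
  have hval : ∀ g, g ≠ 1 → bf S (cg (zr x) g) (cg (zr y) g)
      = - bf S (zc (ig x g)) (zc (ig x g)) := by
    intro g hg
    rw [cg_zr, cg_zr, hne g hg, zc_neg]
    have h1 := bf_smul_right (S := S) (-1) (zc (ig x g)) (zc (ig x g))
    rw [neg_one_smul] at h1
    rw [h1]; ring
  have h1v : v = ig x 1 + ig y 1 := by rw [← hig 1, ig_ci_one]
  have hle : ∀ g ∈ T, bf S (cg (zr x) g) (cg (zr y) g) ≤ 0 := by
    intro g _
    by_cases hg : g = 1
    · subst hg
      rw [cg_zr, cg_zr]
      by_cases hx1 : ig x 1 = 0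
      · have : zc (ig x 1) = 0 := by rw [hx1]; funext i; simp [zc]
        rw [this, bf_zero_left]
      by_cases hy1 : ig y 1 = 0
      · have : zc (ig y 1) = 0 := by rw [hy1]; funext i; simp [zc]
        rw [this, bf_zero_right]
      exact (hv.2 _ _ hx1 hy1 h1v).le
    · rw [hval g hg]
      have := h.nonneg (zc (ig x g))
      linarith
  have hlt : ∃ g ∈ T, bf S (cg (zr x) g) (cg (zr y) g) < 0 := by
    have hstr : ∀ g, g ≠ 1 → ig x g ≠ 0 → bf S (cg (zr x) g) (cg (zr y) g) < 0 := by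
      intro g hg hx1
      rw [hval g hg]
      have := h.pos _ (zc_ne hx1)
      linarith
    by_cases hx1 : ig x 1 = 0
    · obtain ⟨i, hi⟩ : ∃ i, x i ≠ 0 := by
        by_contra h2
        push Not at h2
        exact hx (funext h2)
      obtain ⟨g, hg⟩ : ∃ g, (x i).coeff g ≠ 0 := by
        by_contra h2
        push Not at h2
        apply hi
        ext g
        rw [h2 g]; simp
      have hg1 : g ≠ 1 := by
        rintro rfl
        exact hg (congrFun hx1 i)
      exact ⟨g, hTx i g hg, hstr g hg1 fun h2 => hg (congrFun h2 i)⟩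
    by_cases hy1 : ig y 1 = 0
    · obtain ⟨i, hi⟩ : ∃ i, y i ≠ 0 := by
        by_contra h2
        push Not at h2
        exact hy (funext h2)
      obtain ⟨g, hg⟩ : ∃ g, (y i).coeff g ≠ 0 := by
        by_contra h2
        push Not at h2
        apply hi
        ext g
        rw [h2 g]; simp
      have hg1 : g ≠ 1 := by
        rintro rfl
        exact hg (congrFun hy1 i)
      refine ⟨g, hTy i g hg, hstr g hg1 fun h2 => ?_⟩
      have h3 := hne g hg1
      rw [h2, neg_zero] at h3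
      exact hg (congrFun h3 i)
    · refine ⟨1, Finset.mem_insert_self _ _, ?_⟩
      rw [cg_zr, cg_zr]
      exact hv.2 _ _ hx1 hy1 h1v
  exact Finset.sum_neg' hle hlt

end ind

end K4H41.GS
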