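import Pool.Agent.TH6.LF.Bar

set_option autoImplicit false
set_option linter.unusedSectionVars false

/-! Parts of group ring elements supported in a left coset or in a subgroup. -/

namespace K4H41.GS

open Matrix TH6.LF TH57.Thr

section one

variable {R : Type} [CommRing R] {Γ : Type} [Group Γ] (H : Subgroup Γ)

open Classical in
/-- the part supported in the left coset `c` -/
noncomputable def part (c : Γ ⧸ H) (x : MonoidAlgebra R Γ) : MonoidAlgebra R Γ :=
  MonoidAlgebra.ofCoeff (x.coeff.filter fun g => (QuotientGroup.mk g : Γ ⧸ H) = c)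

open Classical in
/-- the part supported in the subgroup -/
noncomputable def res (x : MonoidAlgebra R Γ) : MonoidAlgebra R Γ :=
  MonoidAlgebra.ofCoeff (x.coeff.filter fun g => g ∈ H)

open Classical in
theorem coeff_part (c : Γ ⧸ H) (x : MonoidAlgebra R Γ) (g : Γ) :
    (part H c x).coeff g = if (QuotientGroup.mk g : Γ ⧸ H) = c then x.coeff g else 0 := by
  unfold part
  rw [MonoidAlgebra.coeff_ofCoeff, Finsupp.filter_apply]

open Classical in
theorem coeff_res (x : MonoidAlgebra R Γ) (g : Γ) :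
    (res H x).coeff g = if g ∈ H then x.coeff g else 0 := by
  unfold res
  rw [MonoidAlgebra.coeff_ofCoeff, Finsupp.filter_apply]

theorem part_add (c : Γ ⧸ H) (x y : MonoidAlgebra R Γ) :
    part H c (x + y) = part H c x + part H c y := by
  ext g
  simp only [coeff_part, MonoidAlgebra.coeff_add, Finsupp.add_apply]
  split_ifs <;> simp

theorem part_zero (c : Γ ⧸ H) : part H c (0 : MonoidAlgebra R Γ) = 0 := by
  ext g
  simp [coeff_part]

theorem part_sum {ι : Type} (s : Finset ι) (f : ι → MonoidAlgebra R Γ) (c : Γ ⧸ H) :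
    part H c (∑ i ∈ s, f i) = ∑ i ∈ s, part H c (f i) := by
  classical
  induction s using Finset.induction_on with
  | empty => simp [part_zero]
  | insert i s hi ih => rw [Finset.sum_insert hi, Finset.sum_insert hi, part_add, ih]

/-- support in one left coset -/
def InC (c : Γ ⧸ H) (x : MonoidAlgebra R Γ) : Prop :=
  ∀ g, x.coeff g ≠ 0 → (QuotientGroup.mk g : Γ ⧸ H) = c

theorem inC_part (c : Γ ⧸ H) (x : MonoidAlgebra R Γ) : InC H c (part H c x) := by
  intro g hg
  rw [coeff_part] at hg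
  by_contra h
  rw [if_neg h] at hg
  exact hg rfl

theorem part_of_inC {c : Γ ⧸ H} {x : MonoidAlgebra R Γ} (h : InC H c x) : part H c x = x := by
  ext g
  rw [coeff_part]
  split_ifs with h1
  · rfl
  · by_contra h2
    exact h1 (h g (Ne.symm h2))

theorem part_mul_res {c : Γ ⧸ H} {x : MonoidAlgebra R Γ} (h : InC H c x) (t : MonoidAlgebra R Γ) :
    part H c (x * t) = x * res H t := by
  ext k
  rw [coeff_part, MonoidAlgebra.coeff_mul_apply_left, MonoidAlgebra.coeff_mul_apply_left]
  split_ifs with hk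
  · refine Finset.sum_congr rfl fun g hg => ?_
    have h1 := h g (Finsupp.mem_support_iff.1 hg)
    have h2 : g⁻¹ * k ∈ H := by
      rw [← hk] at h1
      exact QuotientGroup.eq.1 h1
    simp only [coeff_res, if_pos h2]
  · symm
    refine Finset.sum_eq_zero fun g hg => ?_
    have h1 := h g (Finsupp.mem_support_iff.1 hg)
    have h2 : g⁻¹ * k ∉ H := by
      intro h3
      exact hk ((QuotientGroup.eq.2 h3).symm.trans h1)
    simp only [coeff_res, if_neg h2, mul_zero]

theorem InC.mul {c : Γ ⧸ H} {x t : MonoidAlgebra R Γ} (h : InC H c x)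
    (ht : ∀ g, t.coeff g ≠ 0 → g ∈ H) : InC H c (x * t) := by
  have h1 : res H t = t := by
    ext g
    rw [coeff_res]
    split_ifs with h2
    · rfl
    · by_contra h3
      exact h2 (ht g (Ne.symm h3))
  have h2 := part_mul_res H h t
  rw [h1] at h2
  rw [← h2]
  exact inC_part H c _

end one

section vec

variable {R : Type} [CommRing R] {Γ : Type} [Group Γ] (H : Subgroup Γ)
  {κ : Type} [Fintype κ] [DecidableEq κ]

/-- the part of a vector -/
noncomputable def vp (c : Γ ⧸ H) (x : κ → MonoidAlgebra R Γ) : κ → MonoidAlgebra R Γ :=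
  fun i => part H c (x i)

/-- the part of a matrix in the subgroup -/
noncomputable def rm (M : Matrix κ κ (MonoidAlgebra R Γ)) : Matrix κ κ (MonoidAlgebra R Γ) :=
  M.map (res H)

/-- vectors supported in one left coset -/
def VC (c : Γ ⧸ H) (x : κ → MonoidAlgebra R Γ) : Prop := ∀ i, InC H c (x i)

theorem vc_vp (c : Γ ⧸ H) (x : κ → MonoidAlgebra R Γ) : VC H c (vp H c x) :=
  fun i => inC_part H c (x i)

theorem vp_of_vc {c : Γ ⧸ H} {x : κ → MonoidAlgebra R Γ} (h : VC H c x) : vp H c x = x :=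
  funext fun i => part_of_inC H (h i)

theorem vp_vecMul {c : Γ ⧸ H} {x : κ → MonoidAlgebra R Γ} (h : VC H c x)
    (M : Matrix κ κ (MonoidAlgebra R Γ)) : vp H c (x ᵥ* M) = x ᵥ* rm H M := by
  funext j
  change part H c (∑ i, x i * M i j) = ∑ i, x i * res H (M i j)
  rw [part_sum]
  exact Finset.sum_congr rfl fun i _ => part_mul_res H (h i) _

/-- the cosets meeting the support -/
noncomputable def cs (x : κ → MonoidAlgebra R Γ) : Finset (Γ ⧸ H) := by
  classical
  exact Finset.univ.biUnion fun i => (x i).coeff.support.image (QuotientGroup.mk : Γ → Γ ⧸ H)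

theorem mem_cs {x : κ → MonoidAlgebra R Γ} {c : Γ ⧸ H} :
    c ∈ cs H x ↔ ∃ i g, (x i).coeff g ≠ 0 ∧ (QuotientGroup.mk g : Γ ⧸ H) = c := by
  classical
  simp only [cs, Finset.mem_biUnion, Finset.mem_univ, true_and, Finset.mem_image,
    Finsupp.mem_support_iff]

theorem sum_vp (x : κ → MonoidAlgebra R Γ) : ∑ c ∈ cs H x, vp H c x = x := by
  classical
  funext i
  rw [Finset.sum_apply]
  ext g
  rw [MonoidAlgebra.coeff_sum, Finsupp.finsetSum_apply]
  simp only [vp, coeff_part]
  rw [Finset.sum_ite_eq]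
  split_ifs with h
  · rfl
  · by_contra h1
    exact h (mem_cs H |>.2 ⟨i, g, Ne.symm h1, rfl⟩)

theorem vp_ne_zero {x : κ → MonoidAlgebra R Γ} {c : Γ ⧸ H} (h : c ∈ cs H x) : vp H c x ≠ 0 := by
  obtain ⟨i, g, h1, h2⟩ := (mem_cs H).1 h
  intro h3
  have h4 := congrFun h3 i
  have h5 : (part H c (x i)).coeff g = 0 := by
    change part H c (x i) = 0 at h4
    rw [h4]; simp
  rw [coeff_part, if_pos h2] at h5
  exact h1 h5

theorem vp_vp_ne {c d : Γ ⧸ H} (h : c ≠ d) (x : κ → MonoidAlgebra R Γ) :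
    vp H c (vp H d x) = 0 := by
  funext i
  ext g
  simp only [vp, coeff_part]
  split_ifs with h1 h2
  · exact absurd (h1.symm.trans h2) h
  · rfl
  · rfl

theorem vp_sub (c : Γ ⧸ H) (x y : κ → MonoidAlgebra R Γ) :
    vp H c (x - y) = vp H c x - vp H c y := by
  funext i
  ext g
  simp only [vp, coeff_part, Pi.sub_apply, MonoidAlgebra.coeff_sub, Finsupp.sub_apply]
  split_ifs <;> simp

theorem sub_vp_ne_zero {x : κ → MonoidAlgebra R Γ} {c d : Γ ⧸ H} (hd : d ∈ cs H x)
    (h : d ≠ c) : x - vp H c x ≠ 0 := by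
  intro h1
  have h2 := congrArg (vp H d) h1
  rw [vp_sub, vp_vp_ne H h, sub_zero] at h2
  apply vp_ne_zero H hd
  rw [h2]
  funext i
  exact part_zero H d

end vec

section real

variable {Γ : Type} [Group Γ] (H : Subgroup Γ) {κ : Type} [Fintype κ] [DecidableEq κ]

theorem ip_eq (x y : κ → MonoidAlgebra ℝ Γ) :
    ip x y = ∑ i, (x i).coeff.sum fun g a => a * (y i).coeff g := by
  unfold ip
  rw [MonoidAlgebra.coeff_sum, Finsupp.finsetSum_apply]
  refine Finset.sum_congr rfl fun i _ => ?_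
  rw [MonoidAlgebra.coeff_mul_apply_left]
  refine Finset.sum_congr rfl fun g _ => ?_
  simp only [coeff_bar]
  simp

theorem ip_vp {c : Γ ⧸ H} (x y : κ → MonoidAlgebra ℝ Γ) (hy : VC H c y) :
    ip x y = ip (vp H c x) y := by
  rw [ip_comm, ip_comm (vp H c x), ip_eq, ip_eq]
  refine Finset.sum_congr rfl fun i _ => Finset.sum_congr rfl fun g hg => ?_
  have h1 := hy i g (Finsupp.mem_support_iff.1 hg)
  simp only [vp, coeff_part, if_pos h1]

theorem ip_disj {c d : Γ ⧸ H} (h : c ≠ d) (x y : κ → MonoidAlgebra ℝ Γ) (hx : VC H c x)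
    (hy : VC H d y) : ip x y = 0 := by
  rw [ip_vp H x y hy, ← vp_of_vc H hx, vp_vp_ne H h.symm, ip_zero_left]

theorem ip_sum_left {ι : Type} (s : Finset ι) (f : ι → κ → MonoidAlgebra ℝ Γ)
    (y : κ → MonoidAlgebra ℝ Γ) : ip (∑ i ∈ s, f i) y = ∑ i ∈ s, ip (f i) y := by
  classical
  induction s using Finset.induction_on with
  | empty => simp [ip_zero_left]
  | insert i s hi ih => rw [Finset.sum_insert hi, Finset.sum_insert hi, ip_add_left, ih]

theorem ip_sum_right {ι : Type} (s : Finset ι) (f : ι → κ → MonoidAlgebra ℝ Γ)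
    (y : κ → MonoidAlgebra ℝ Γ) : ip y (∑ i ∈ s, f i) = ∑ i ∈ s, ip y (f i) := by
  rw [ip_comm, ip_sum_left]
  exact Finset.sum_congr rfl fun i _ => ip_comm _ _

theorem vec_sum {ι : Type} (s : Finset ι) (f : ι → κ → MonoidAlgebra ℝ Γ)
    (M : Matrix κ κ (MonoidAlgebra ℝ Γ)) : (∑ i ∈ s, f i) ᵥ* M = ∑ i ∈ s, f i ᵥ* M := by
  classical
  induction s using Finset.induction_on with
  | empty => simp
  | insert i s hi ih => rw [Finset.sum_insert hi, Finset.sum_insert hi, Matrix.add_vecMul, ih]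

/-- the quadratic form of the restricted matrix -/
theorem form_res (F : Finset (Γ ⧸ H)) (x : (Γ ⧸ H) → κ → MonoidAlgebra ℝ Γ)
    (hx : ∀ c, VC H c (x c)) (M : Matrix κ κ (MonoidAlgebra ℝ Γ)) :
    ip ((∑ c ∈ F, x c) ᵥ* rm H M) (∑ c ∈ F, x c) = ∑ c ∈ F, ip (x c ᵥ* M) (x c) := by
  classical
  rw [vec_sum, ip_sum_left]
  refine Finset.sum_congr rfl fun c hc => ?_
  rw [ip_sum_right, Finset.sum_eq_single c]
  · rw [← vp_vecMul H (hx c), ← ip_vp H _ _ (hx c)]
  · intro d _ hd
    rw [← vp_vecMul H (hx c)]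
    exact ip_disj H hd.symm _ _ (vc_vp H c _) (hx d)
  · intro h; exact absurd hc h

end real

end K4H41.GS
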