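import Pool.Agent.K4H41.GS.Coset

set_option autoImplicit false
set_option linter.unusedSectionVars false

/-! The standard form: the sharp constant. -/

namespace K4H41.GS

open Matrix TH6.LF TH57.Thr

section pos

variable {κ : Type} [Fintype κ] [DecidableEq κ] {Γ : Type} [Group Γ] {S : Matrix κ κ ℝ}

theorem sf_pos (h : PD S) {x : κ → MonoidAlgebra ℤ Γ} (hx : x ≠ 0) :
    0 < sf S (zr x) (zr x) := by
  classical
  rw [sf_eq _ _ (Finset.univ.biUnion fun i => (x i).coeff.support)]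
  · obtain ⟨i, hi⟩ : ∃ i, x i ≠ 0 := by
      by_contra h2
      push Not at h2
      exact hx (funext h2)
    obtain ⟨g, hg⟩ : ∃ g, (x i).coeff g ≠ 0 := by
      by_contra h2
      push Not at h2
      apply hi
      ext g
      rw [h2 g]; simp
    apply Finset.sum_pos'
    · intro k _
      exact h.nonneg _
    · refine ⟨g, Finset.mem_biUnion.2 ⟨i, Finset.mem_univ _, Finsupp.mem_support_iff.2 hg⟩, ?_⟩
      rw [cg_zr]
      apply h.pos _ (zc_ne _)
      intro h1
      exact hg (congrFun h1 i)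
  · intro i g hg
    rw [coeff_zr] at hg
    exact Finset.mem_biUnion.2 ⟨i, Finset.mem_univ _,
      Finsupp.mem_support_iff.2 (by exact_mod_cast hg)⟩

end pos

section std

variable {κ : Type} [Fintype κ] [DecidableEq κ]

theorem bf_one (a b : κ → ℝ) : bf (1 : Matrix κ κ ℝ) a b = ∑ i, a i * b i := by
  unfold bf; rw [Matrix.vecMul_one]; rfl

theorem PD_one : PD (1 : Matrix κ κ ℝ) where
  symm i j := by
    rw [Matrix.one_apply, Matrix.one_apply]
    by_cases h : i = j
    · simp [h]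
    · simp [h, Ne.symm h]
  pos a ha := by
    rw [bf_one]
    obtain ⟨i, hi⟩ : ∃ i, a i ≠ 0 := by
      by_contra h2
      push Not at h2
      exact ha (funext h2)
    apply Finset.sum_pos'
    · intro k _; exact mul_self_nonneg _
    · exact ⟨i, Finset.mem_univ _, mul_self_pos.2 hi⟩

theorem int_one (i j : κ) : (1 : Matrix κ κ ℝ) i j ∈ (Int.castRingHom ℝ).range := by
  rw [Matrix.one_apply]
  split_ifs
  · exact Subring.one_mem _
  · exact Subring.zero_mem _

theorem bf_one_ge {a : κ → ℤ} (ha : a ≠ 0) : 1 ≤ bf (1 : Matrix κ κ ℝ) (zc a) (zc a) := by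
  have h1 := PD_one.pos _ (zc_ne ha)
  rw [bf_one] at h1 ⊢
  have h2 : (∑ i, zc a i * zc a i) = ((∑ i, a i * a i : ℤ) : ℝ) := by
    push_cast; rfl
  rw [h2] at h1 ⊢
  have h3 : 0 < ∑ i, a i * a i := by exact_mod_cast h1
  exact_mod_cast h3

theorem bf_single (i : κ) : bf (1 : Matrix κ κ ℝ) (zc (Pi.single i 1)) (zc (Pi.single i 1)) = 1 := by
  rw [bf_one, Finset.sum_eq_single i]
  · simp [zc]
  · intro j _ hj
    simp [zc, hj]
  · intro h; exact absurd (Finset.mem_univ _) h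

theorem irr_single (i : κ) : Irr (1 : Matrix κ κ ℝ) (Pi.single i 1) := by
  refine ⟨?_, ?_⟩
  · intro h
    have := congrFun h i
    simp at this
  · intro a b ha hb hab
    have h1 := bf_single i
    rw [hab, zc_add, bf_add_left, bf_add_right, bf_add_right, PD_one.comm (zc b) (zc a)] at h1
    have := bf_one_ge ha
    have := bf_one_ge hb
    linarith

end std

section sharp

variable {κ : Type} [Fintype κ] [DecidableEq κ] {Γ : Type} [Group Γ] (H : Subgroup Γ)
  (A : (Matrix κ κ (MonoidAlgebra ℤ Γ))ˣ)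

theorem two_case {θ : ℝ} (hθ : 1 - 1 / Real.sqrt 2 < θ)
    (hD : Dom H θ (gram 1 (A : Matrix κ κ (MonoidAlgebra ℤ Γ)))) {v : κ → ℤ}
    {b c : Γ ⧸ H} (hbc : b ≠ c)
    (h1 : sf (1 : Matrix κ κ ℝ) (zr (ac H A v b)) (zr (ac H A v b)) = 1)
    (h2 : sf (1 : Matrix κ κ ℝ) (zr (ac H A v c)) (zr (ac H A v c)) = 2)
    (h3 : sf (1 : Matrix κ κ ℝ) (zr (ac H A v b)) (zr (ac H A v c)) = -1) : False := by
  classical
  have h4 := dom_t H hD (fun d => if d = b then Real.sqrt 2 else 1) {b, c}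
    (fun c => vp H c (pre A v)) (fun c => vc_vp H c _)
  rw [Finset.sum_pair hbc, Finset.sum_pair hbc] at h4
  simp only [if_true, if_neg hbc.symm] at h4
  have e1 : vp H b (pre A v) ᵥ* (A : Matrix κ κ (MonoidAlgebra ℤ Γ)) = ac H A v b := rfl
  have e2 : vp H c (pre A v) ᵥ* (A : Matrix κ κ (MonoidAlgebra ℤ Γ)) = ac H A v c := rfl
  rw [e1, e2] at h4
  simp only [sf_add_left, sf_add_right, sf_smul_left, sf_smul_right, one_smul, h1, h2, h3] at h4
  rw [sf_comm PD_one (zr (ac H A v c)) (zr (ac H A v b)), h3] at h4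
  have hs : Real.sqrt 2 ^ 2 = 2 := Real.sq_sqrt (by norm_num)
  have hs0 : 0 < Real.sqrt 2 := Real.sqrt_pos.2 (by norm_num)
  have h5 : 1 / Real.sqrt 2 = Real.sqrt 2 / 2 := by
    rw [div_eq_div_iff hs0.ne' (by norm_num)]
    nlinarith
  rw [h5] at hθ
  rw [hs] at h4
  nlinarith

theorem one_coset_sharp {θ : ℝ} (hθ : 1 - 1 / Real.sqrt 2 < θ)
    (hD : Dom H θ (gram 1 (A : Matrix κ κ (MonoidAlgebra ℤ Γ)))) (i : κ) :
    ∃ c, VC H c (pre A (Pi.single i 1)) := by
  classical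
  set v : κ → ℤ := Pi.single i 1 with hv
  apply in_one
  by_contra hF
  have hF2 : 2 ≤ (cs H (pre A v)).card := by omega
  have h1 := dom_one H A hD v
  have h2 := norm_eq H A (S := (1 : Matrix κ κ ℝ)) v
  have h3 := Finset.sum_le_sum fun c hc =>
    (ac_neg H A PD_one (irr_single i) hF2 hc).2 int_one
  rw [← hv, ← h2, Finset.sum_sub_distrib] at h3
  simp only [Finset.sum_const, nsmul_eq_mul, mul_one] at h3
  have hF3 : (2 : ℝ) ≤ (cs H (pre A v)).card := by exact_mod_cast hF2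
  rw [hv, bf_single, ← hv] at h1 h3
  have hint : ∑ c ∈ cs H (pre A v), sf 1 (zr (ac H A v c)) (zr (ac H A v c))
      ∈ (Int.castRingHom ℝ).range := Subring.sum_mem _ fun c _ => sf_int int_one _ _
  obtain ⟨z, hz⟩ := hint
  change (z : ℝ) = _ at hz
  rw [← hz] at h1 h3
  have hs0 : 0 < Real.sqrt 2 := Real.sqrt_pos.2 (by norm_num)
  have hs : Real.sqrt 2 ^ 2 = 2 := Real.sq_sqrt (by norm_num)
  have hs1 : Real.sqrt 2 < 3 / 2 := by nlinarith
  have h5 : 1 / Real.sqrt 2 = Real.sqrt 2 / 2 := by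
    rw [div_eq_div_iff hs0.ne' (by norm_num)]
    nlinarith
  have h6 : (1 : ℝ) / 4 < θ := by rw [h5] at hθ; linarith
  have h7 : (z : ℝ) < 4 := by
    by_contra h8
    have h9 : (4 : ℝ) ≤ z := not_lt.1 h8
    nlinarith
  have h8 : z < 4 := by exact_mod_cast h7
  have h9 : (z : ℝ) ≤ 3 := by
    have : z ≤ 3 := by omega
    exact_mod_cast this
  have h10 : (cs H (pre A v)).card = 2 := by
    have : ((cs H (pre A v)).card : ℝ) ≤ 2 := by linarith
    have : (cs H (pre A v)).card ≤ 2 := by exact_mod_cast this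
    omega
  rw [h10] at h3
  push_cast at h3
  have h11 : (z : ℝ) = 3 := by linarith
  obtain ⟨b, c, hbc, hF4⟩ := Finset.card_eq_two.1 h10
  have hb : b ∈ cs H (pre A v) := by rw [hF4]; simp
  have hc : c ∈ cs H (pre A v) := by rw [hF4]; simp
  have hnb := (ac_neg H A PD_one (irr_single i) hF2 hb).2 int_one
  have hnc := (ac_neg H A PD_one (irr_single i) hF2 hc).2 int_one
  rw [← hv] at hnb hnc
  have hsum := sum_ac H A v
  rw [hF4, Finset.sum_pair hbc] at hz hsum
  rw [hF4, Finset.sum_pair hbc, hv, bf_single, ← hv] at h2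
  set α := sf (1 : Matrix κ κ ℝ) (zr (ac H A v b)) (zr (ac H A v b)) with hα
  set β := sf (1 : Matrix κ κ ℝ) (zr (ac H A v c)) (zr (ac H A v c)) with hβ
  have e1 : sf 1 (zr (ac H A v b)) (zr (ci Γ v)) = α - 1 := by linarith
  have e2 : sf 1 (zr (ac H A v c)) (zr (ci Γ v)) = β - 1 := by linarith
  rw [← hsum, zr_add, sf_add_right] at e1 e2
  have e3 : sf 1 (zr (ac H A v b)) (zr (ac H A v c)) = -1 := by linarith
  have e4 : sf 1 (zr (ac H A v c)) (zr (ac H A v b)) = -1 := by linarith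
  obtain ⟨p, hp⟩ := sf_int int_one (ac H A v b) (ac H A v b)
  obtain ⟨q, hq⟩ := sf_int int_one (ac H A v c) (ac H A v c)
  change (p : ℝ) = α at hp
  change (q : ℝ) = β at hq
  have hpα := sf_pos PD_one (vecMul_ne A (vp_ne_zero H hb))
  have hqβ := sf_pos PD_one (vecMul_ne A (vp_ne_zero H hc))
  change 0 < α at hpα
  change 0 < β at hqβ
  rw [← hp] at hpα hz
  rw [← hq] at hqβ hz
  have hp0 : 0 < p := by exact_mod_cast hpα
  have hq0 : 0 < q := by exact_mod_cast hqβ
  have hpq : p + q = 3 := by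
    have : (p : ℝ) + q = 3 := by rw [← hz, h11]
    exact_mod_cast this
  rcases (by omega : (p = 1 ∧ q = 2) ∨ (p = 2 ∧ q = 1)) with ⟨rfl, rfl⟩ | ⟨rfl, rfl⟩
  · exact two_case H A hθ hD hbc (by rw [← hα, ← hp]; norm_num) (by rw [← hβ, ← hq]; norm_num) e3
  · exact two_case H A hθ hD hbc.symm (by rw [← hβ, ← hq]; norm_num)
      (by rw [← hα, ← hp]; norm_num) e4

end sharp

end K4H41.GS
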