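import Pool.Agent.K4H41.GS.Sharp
import Pool.Agent.TH57.Thr.Asm

set_option autoImplicit false
set_option linter.unusedSectionVars false

/-! From rows in one coset to the factorisation. -/

namespace K4H41.GS

open Matrix TH6.LF TH57.Thr

section lift

variable {κ : Type} [Fintype κ] [DecidableEq κ] {Γ : Type} [Group Γ] (H : Subgroup Γ)

/-- the inclusion of the group ring of a subgroup -/
noncomputable def inc : MonoidAlgebra ℤ H →+* MonoidAlgebra ℤ Γ :=
  MonoidAlgebra.mapDomainRingHom ℤ H.subtype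

theorem inc_injective : Function.Injective (inc H) := by
  intro x y hxy
  have h1 : MonoidAlgebra.mapDomain H.subtype x = MonoidAlgebra.mapDomain H.subtype y := hxy
  exact MonoidAlgebra.mapDomain_injective H.subtype_injective h1

theorem lift_mat (M : Matrix κ κ (MonoidAlgebra ℤ Γ))
    (hM : ∀ i j g, (M i j).coeff g ≠ 0 → g ∈ H) :
    ∃ P : Matrix κ κ (MonoidAlgebra ℤ H), mpm (inc H) P = M := by
  refine ⟨M.map (MonoidAlgebra.comapDomain H.subtype H.subtype_injective), ?_⟩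
  ext1 i j
  change MonoidAlgebra.mapDomain H.subtype
    (MonoidAlgebra.comapDomain H.subtype H.subtype_injective (M i j)) = _
  apply MonoidAlgebra.mapDomain_comapDomain
  intro g hg
  exact ⟨⟨g, hM i j g (Finsupp.mem_support_iff.1 hg)⟩, rfl⟩

theorem mpm_injective : Function.Injective (mpm (κ := κ) (inc H)) := by
  intro P Q h
  ext1 i j
  apply inc_injective H
  exact congrFun (congrFun h i) j

theorem lift_units (M : (Matrix κ κ (MonoidAlgebra ℤ Γ))ˣ)
    (h1 : ∀ i j g, ((M : Matrix κ κ (MonoidAlgebra ℤ Γ)) i j).coeff g ≠ 0 → g ∈ H)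
    (h2 : ∀ i j g, ((↑M⁻¹ : Matrix κ κ (MonoidAlgebra ℤ Γ)) i j).coeff g ≠ 0 → g ∈ H) :
    ∃ P : (Matrix κ κ (MonoidAlgebra ℤ H))ˣ, Units.map (mpm (inc H)) P = M := by
  obtain ⟨P, hP⟩ := lift_mat H _ h1
  obtain ⟨Q, hQ⟩ := lift_mat H _ h2
  refine ⟨⟨P, Q, ?_, ?_⟩, Units.ext hP⟩
  · apply mpm_injective H
    rw [map_mul, hP, hQ, Units.mul_inv, map_one]
  · apply mpm_injective H
    rw [map_mul, hP, hQ, Units.inv_mul, map_one]

/-- the inverse of a matrix over the smaller group ring -/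
theorem inv_supp (M : (Matrix κ κ (MonoidAlgebra ℤ Γ))ˣ)
    (h1 : ∀ i j g, ((M : Matrix κ κ (MonoidAlgebra ℤ Γ)) i j).coeff g ≠ 0 → g ∈ H) :
    ∀ i j g, ((↑M⁻¹ : Matrix κ κ (MonoidAlgebra ℤ Γ)) i j).coeff g ≠ 0 → g ∈ H := by
  classical
  have h2 : ∀ i, VC H (QuotientGroup.mk 1) ((M : Matrix κ κ (MonoidAlgebra ℤ Γ)) i) := by
    intro i j g hg
    have h3 := h1 i j g hg
    exact (QuotientGroup.eq.2 (by simpa using h3)).symm
  have key : ∀ i, (M : Matrix κ κ (MonoidAlgebra ℤ Γ)) i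
      ᵥ* rm H (↑M⁻¹ : Matrix κ κ (MonoidAlgebra ℤ Γ))
      = (1 : Matrix κ κ (MonoidAlgebra ℤ Γ)) i := by
    intro i
    have h4 := vp_vecMul H (h2 i) (↑M⁻¹ : Matrix κ κ (MonoidAlgebra ℤ Γ))
    have h5 : (M : Matrix κ κ (MonoidAlgebra ℤ Γ)) i ᵥ* (↑M⁻¹ : Matrix κ κ (MonoidAlgebra ℤ Γ))
        = (1 : Matrix κ κ (MonoidAlgebra ℤ Γ)) i := by
      rw [← M.mul_inv]; rfl
    rw [h5] at h4
    rw [← h4]
    apply vp_of_vc
    intro j g hg
    rw [Matrix.one_apply] at hg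
    split_ifs at hg with h6
    · rw [MonoidAlgebra.one_def, MonoidAlgebra.coeff_single, Finsupp.single_apply] at hg
      split_ifs at hg with h7
      · rw [← h7]
      · exact absurd rfl hg
    · exact absurd (by simp) hg
  have h3 : (M : Matrix κ κ (MonoidAlgebra ℤ Γ)) * rm H (↑M⁻¹ : Matrix κ κ (MonoidAlgebra ℤ Γ))
      = 1 := Matrix.ext fun i j => congrFun (key i) j
  have h4 : rm H (↑M⁻¹ : Matrix κ κ (MonoidAlgebra ℤ Γ)) = ↑M⁻¹ := by
    have h5 := congrArg (fun Z => (↑M⁻¹ : Matrix κ κ (MonoidAlgebra ℤ Γ)) * Z) h3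
    simp only [← Matrix.mul_assoc, Units.inv_mul, Matrix.one_mul, Matrix.mul_one] at h5
    exact h5
  intro i j g hg
  rw [← h4] at hg
  change (res H ((↑M⁻¹ : Matrix κ κ (MonoidAlgebra ℤ Γ)) i j)).coeff g ≠ 0 at hg
  rw [coeff_res] at hg
  by_contra h5
  rw [if_neg h5] at hg
  exact hg rfl

end lift

section fact

variable {κ : Type} [Fintype κ] [DecidableEq κ] {Γ : Type} [Group Γ] (H : Subgroup Γ)
  (A : (Matrix κ κ (MonoidAlgebra ℤ Γ))ˣ)

/-- an integral invertible matrix over the group ring -/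
noncomputable def iu (Γ : Type) [Group Γ] (U : (Matrix κ κ ℤ)ˣ) :
    (Matrix κ κ (MonoidAlgebra ℤ Γ))ˣ :=
  Units.map (mpm (Int.castRingHom (MonoidAlgebra ℤ Γ))) U

theorem iu_apply (U : (Matrix κ κ ℤ)ˣ) (i j : κ) :
    (iu Γ U : Matrix κ κ (MonoidAlgebra ℤ Γ)) i j
      = MonoidAlgebra.single 1 ((U : Matrix κ κ ℤ) i j) := by
  change ((Int.castRingHom (MonoidAlgebra ℤ Γ)) ((U : Matrix κ κ ℤ) i j)) = _
  exact int_single _

theorem row_pre (U : (Matrix κ κ ℤ)ˣ) (i : κ) :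
    ((iu Γ U : Matrix κ κ (MonoidAlgebra ℤ Γ)) * (↑A⁻¹ : Matrix κ κ (MonoidAlgebra ℤ Γ))) i
      = pre A ((U : Matrix κ κ ℤ) i) := by
  unfold pre
  have h1 : ci Γ ((U : Matrix κ κ ℤ) i) = (iu Γ U : Matrix κ κ (MonoidAlgebra ℤ Γ)) i := by
    funext j
    rw [iu_apply]
    rfl
  rw [h1]
  rfl

theorem factor (U : (Matrix κ κ ℤ)ˣ) (g : κ → Γ)
    (h : ∀ i, VC H (QuotientGroup.mk (g i)) (pre A ((U : Matrix κ κ ℤ) i))) :
    ∃ P : (Matrix κ κ (MonoidAlgebra ℤ H))ˣ,
      A = Units.map (mpm (inc H)) P * (dgu g)⁻¹ * iu Γ U := by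
  set M : (Matrix κ κ (MonoidAlgebra ℤ Γ))ˣ := (dgu g)⁻¹ * (iu Γ U * A⁻¹) with hM
  have h1 : ∀ i j k, ((M : Matrix κ κ (MonoidAlgebra ℤ Γ)) i j).coeff k ≠ 0 → k ∈ H := by
    intro i j k hk
    have e1 : (M : Matrix κ κ (MonoidAlgebra ℤ Γ)) i j
        = MonoidAlgebra.single (g i)⁻¹ (1 : ℤ) * pre A ((U : Matrix κ κ ℤ) i) j := by
      have e2 : (M : Matrix κ κ (MonoidAlgebra ℤ Γ))
          = Matrix.diagonal (fun i => MonoidAlgebra.single (g i)⁻¹ (1 : ℤ))
            * ((iu Γ U : Matrix κ κ (MonoidAlgebra ℤ Γ))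
              * (↑A⁻¹ : Matrix κ κ (MonoidAlgebra ℤ Γ))) := by
        rw [hM]; rfl
      rw [e2, Matrix.diagonal_mul, ← row_pre]
    rw [e1, MonoidAlgebra.coeff_single_mul_apply, inv_inv, one_mul] at hk
    have h2 := h i j _ hk
    have h3 := QuotientGroup.eq.1 h2
    have h4 : k⁻¹ ∈ H := by
      simpa [mul_assoc] using h3
    simpa using H.inv_mem h4
  have h2 := inv_supp H M h1
  obtain ⟨P, hP⟩ := lift_units H M⁻¹ h2 (by rw [inv_inv]; exact h1)
  refine ⟨P, ?_⟩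
  rw [hP, hM]
  group

end fact

section basis

variable {κ : Type} [Fintype κ] [DecidableEq κ] {Γ : Type} [Group Γ] (H : Subgroup Γ)
  (A : (Matrix κ κ (MonoidAlgebra ℤ Γ))ˣ)

theorem ci_add (v w : κ → ℤ) : ci Γ (v + w) = ci Γ v + ci Γ w := by
  funext i
  simp [ci, MonoidAlgebra.single_add]

theorem pre_add (v w : κ → ℤ) : pre A (v + w) = pre A v + pre A w := by
  unfold pre
  rw [ci_add, Matrix.add_vecMul]

theorem pre_zero : pre A (0 : κ → ℤ) = 0 := by
  have h1 := pre_add A (0 : κ → ℤ) 0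
  rw [add_zero] at h1
  exact left_eq_add.1 h1

theorem pre_smul (z : ℤ) (v : κ → ℤ) : pre A (z • v) = z • pre A v := by
  let φ : (κ → ℤ) →+ (κ → MonoidAlgebra ℤ Γ) :=
    { toFun := pre A, map_zero' := pre_zero A, map_add' := pre_add A }
  exact map_zsmul φ z v

theorem pre_inj {v : κ → ℤ} (h : pre A v = 0) : v = 0 := by
  have h1 := pre_vecMul A v
  rw [h, Matrix.zero_vecMul] at h1
  have h2 := ig_ci_one (Γ := Γ) v
  rw [← h1] at h2
  rw [← h2]
  funext i
  simp [ig]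

theorem vp_add (c : Γ ⧸ H) (x y : κ → MonoidAlgebra ℤ Γ) :
    vp H c (x + y) = vp H c x + vp H c y := funext fun i => part_add H c (x i) (y i)

theorem vp_zsmul (c : Γ ⧸ H) (z : ℤ) (x : κ → MonoidAlgebra ℤ Γ) :
    vp H c (z • x) = z • vp H c x := by
  let φ : (κ → MonoidAlgebra ℤ Γ) →+ (κ → MonoidAlgebra ℤ Γ) :=
    { toFun := vp H c, map_zero' := funext fun i => part_zero H c, map_add' := vp_add H c }
  exact map_zsmul φ z x

theorem vc_iff (c : Γ ⧸ H) (x : κ → MonoidAlgebra ℤ Γ) : VC H c x ↔ vp H c x = x :=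
  ⟨fun h => vp_of_vc H h, fun h => by rw [← h]; exact vc_vp H c x⟩

/-- the integral vectors whose preimage lies in one coset -/
noncomputable def Lc (c : Γ ⧸ H) : Submodule ℤ (κ → ℤ) where
  carrier := {v | VC H c (pre A v)}
  zero_mem' := by
    change VC H c (pre A 0)
    rw [pre_zero, vc_iff]
    exact funext fun i => part_zero H c
  add_mem' := by
    intro v w hv hw
    change VC H c (pre A (v + w))
    rw [vc_iff, pre_add, vp_add, (vc_iff H c _).1 hv, (vc_iff H c _).1 hw]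
  smul_mem' := by
    intro z v hv
    change VC H c (pre A (z • v))
    rw [vc_iff, pre_smul, vp_zsmul, (vc_iff H c _).1 hv]

theorem mem_Lc (c : Γ ⧸ H) (v : κ → ℤ) : v ∈ Lc H A c ↔ VC H c (pre A v) := Iff.rfl

/-- the integral vectors whose preimage has no part in one coset -/
noncomputable def Nc (c : Γ ⧸ H) : Submodule ℤ (κ → ℤ) where
  carrier := {v | vp H c (pre A v) = 0}
  zero_mem' := by
    change vp H c (pre A 0) = 0
    rw [pre_zero]
    exact funext fun i => part_zero H c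
  add_mem' := by
    intro v w hv hw
    change vp H c (pre A (v + w)) = 0
    change vp H c (pre A v) = 0 at hv
    change vp H c (pre A w) = 0 at hw
    rw [pre_add, vp_add, hv, hw, add_zero]
  smul_mem' := by
    intro z v hv
    change vp H c (pre A (z • v)) = 0
    change vp H c (pre A v) = 0 at hv
    rw [pre_smul, vp_zsmul, hv, smul_zero]

theorem indep : iSupIndep (Lc H A) := by
  intro c
  rw [Submodule.disjoint_def]
  intro v hv hv2
  have h1 : (⨆ (j : Γ ⧸ H) (_ : j ≠ c), Lc H A j) ≤ Nc H A c := by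
    refine iSup₂_le fun d hd w hw => ?_
    change vp H c (pre A w) = 0
    rw [← vp_of_vc H ((mem_Lc H A d w).1 hw)]
    exact vp_vp_ne H hd.symm _
  have h2 : vp H c (pre A v) = 0 := h1 hv2
  rw [vp_of_vc H ((mem_Lc H A c v).1 hv)] at h2
  exact pre_inj A h2

theorem exists_basis (h : ⨆ c, Lc H A c = ⊤) :
    ∃ (U : (Matrix κ κ ℤ)ˣ) (c : κ → Γ ⧸ H), ∀ i, VC H (c i) (pre A ((U : Matrix κ κ ℤ) i)) := by
  classical
  have hint : DirectSum.IsInternal (Lc H A) :=
    (DirectSum.isInternal_submodule_iff_iSupIndep_and_iSup_eq_top _).2 ⟨indep H A, h⟩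
  let b0 := hint.collectedBasis fun c => Module.Free.chooseBasis ℤ (Lc H A c)
  let e := b0.indexEquiv (Pi.basisFun ℤ κ)
  let b := b0.reindex e
  have hb : ∀ i, VC H ((e.symm i).1) (pre A (b i)) := by
    intro i
    rw [← mem_Lc]
    change (b0.reindex e) i ∈ _
    rw [Module.Basis.reindex_apply]
    exact hint.collectedBasis_mem (fun c => Module.Free.chooseBasis ℤ (Lc H A c)) (e.symm i)
  let st := Pi.basisFun ℤ κ
  have h1 : st.toMatrix b * b.toMatrix st = 1 := Module.Basis.toMatrix_mul_toMatrix_flip _ _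
  have h2 : b.toMatrix st * st.toMatrix b = 1 := Module.Basis.toMatrix_mul_toMatrix_flip _ _
  refine ⟨⟨(st.toMatrix b)ᵀ, (b.toMatrix st)ᵀ, ?_, ?_⟩, fun i => (e.symm i).1, fun i => ?_⟩
  · rw [← Matrix.transpose_mul, h2, Matrix.transpose_one]
  · rw [← Matrix.transpose_mul, h1, Matrix.transpose_one]
  · have h3 : ((st.toMatrix b)ᵀ : Matrix κ κ ℤ) i = b i := by
      funext j
      rw [Matrix.transpose_apply, Module.Basis.toMatrix_apply]
      simp [st]
    change VC H _ (pre A ((st.toMatrix b)ᵀ i))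
    rw [h3]
    exact hb i

end basis

end K4H41.GS
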